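import Pool.Agent.K3h63.IQ.Stm2

/-!
# Traces and parity of duals
-/

set_option autoImplicit false
set_option linter.unusedSectionVars false
set_option linter.unusedSimpArgs false
set_option backward.isDefEq.respectTransparency false
set_option backward.defeqAttrib.useBackward true

open CategoryTheory Limits MonoidalCategory
open Pool.Agent.Y112.SR Pool.Agent.Y112.KD Pool.Agent.Y112.SC Pool.Agent.R905

namespace Pool.Agent.K3h33.IQ

universe v u w

open Functor.LaxMonoidal Functor.OplaxMonoidal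

section LinAlg

variable {K : Type*} [Field K] {V W : Type*} [AddCommGroup V] [Module K V] [Module.Finite K V]
  [AddCommGroup W] [Module K W] [Module.Finite K W]

/-- Adjoint operators for a perfect pairing have the same trace. -/
lemma trace_adj (S : Finset (V × W)) (B : W →ₗ[K] V →ₗ[K] K)
    (h1 : ∀ x, ∑ i ∈ S, B i.2 x • i.1 = x) (h2 : ∀ y, ∑ i ∈ S, B y i.1 • i.2 = y)
    (f : V →ₗ[K] V) (g : W →ₗ[K] W) (h : ∀ y x, B (g y) x = B y (f x)) :
    LinearMap.trace K W g = LinearMap.trace K V f := by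
  have e1 : f = ∑ i ∈ S, (B i.2).smulRight (f i.1) := by
    ext x
    rw [LinearMap.sum_apply]
    conv_lhs => rw [← h1 x, map_sum]
    exact Finset.sum_congr rfl fun i _ => by rw [map_smul, LinearMap.smulRight_apply]
  have e2 : g = ∑ i ∈ S, (B.flip i.1).smulRight (g i.2) := by
    ext y
    rw [LinearMap.sum_apply]
    conv_lhs => rw [← h2 y, map_sum]
    exact Finset.sum_congr rfl fun i _ => by
      rw [map_smul, LinearMap.smulRight_apply, LinearMap.flip_apply]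
  rw [e1, e2, map_sum, map_sum]
  refine Finset.sum_congr rfl fun i _ => ?_
  rw [LinearMap.trace_smulRight, LinearMap.trace_smulRight, LinearMap.flip_apply, h]

end LinAlg

section

variable {C : Type u} [Category.{v} C] [Preadditive C] [MonoidalCategory C] [SymmetricCategory C]
  [RightRigidCategory C] {K : Type w} [Field K] (R : SuperRealisation C K)

lemma zigzag2 (N : C) : R.H.obj Nᘁ ◁ coe R N ≫ (α_ _ _ _).inv ≫ evb R N ▷ R.H.obj Nᘁ =
    (ρ_ (R.H.obj Nᘁ)).hom ≫ (λ_ (R.H.obj Nᘁ)).inv := by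
  rw [← cancel_mono (λ_ (R.H.obj Nᘁ)).hom]
  simp only [Category.assoc, Iso.inv_hom_id, Category.comp_id]
  have h3 : (λ_ (R.H.obj Nᘁ)).hom = ε R.H ▷ R.H.obj Nᘁ ≫ μ R.H (𝟙_ C) Nᘁ ≫ R.H.map (λ_ Nᘁ).hom :=
    Functor.LaxMonoidal.left_unitality R.H Nᘁ
  rw [h3, coe, evb]
  simp only [comp_whiskerRight, MonoidalCategory.whiskerLeft_comp, Category.assoc]
  have h4 : η R.H ▷ R.H.obj Nᘁ ≫ ε R.H ▷ R.H.obj Nᘁ = 𝟙 _ := by
    rw [← comp_whiskerRight, Functor.Monoidal.η_ε, id_whiskerRight]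
  rw [reassoc_of% h4, μ_natural_left_assoc]
  have h5 := Functor.LaxMonoidal.associativity_inv (F := R.H) Nᘁ N Nᘁ
  have h6 : (R.H.obj Nᘁ ◁ δ R.H N Nᘁ) ≫ (R.H.obj Nᘁ ◁ μ R.H N Nᘁ) = 𝟙 _ := by
    rw [← MonoidalCategory.whiskerLeft_comp, Functor.Monoidal.δ_μ,
      MonoidalCategory.whiskerLeft_id]
  rw [← reassoc_of% h5, reassoc_of% h6, μ_natural_right_assoc, ← Functor.map_comp,
    ← Functor.map_comp, ← Functor.map_comp]
  have h7 : Nᘁ ◁ η_ N Nᘁ ≫ (α_ Nᘁ N Nᘁ).inv ≫ ε_ N Nᘁ ▷ Nᘁ ≫ (λ_ Nᘁ).hom = (ρ_ Nᘁ).hom := by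
    rw [ExactPairing.coevaluation_evaluation_assoc]
    simp
  rw [h7]
  exact (Functor.LaxMonoidal.right_unitality R.H Nᘁ).symm

/-- The pairing between the realisations of the dual and of the object. -/
noncomputable def pair (N : C) : R.H.obj Nᘁ →ₗ[K] R.H.obj N →ₗ[K] K :=
  TensorProduct.curry (evb R N).hom

lemma pair_apply (N : C) (y : R.H.obj Nᘁ) (x : R.H.obj N) :
    pair R N y x = (evb R N).hom (y ⊗ₜ[K] x : TensorProduct K (R.H.obj Nᘁ) (R.H.obj N)) := rfl

lemma exists_dual_bases (N : C) : ∃ S : Finset (R.H.obj N × R.H.obj Nᘁ),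
    (∀ x, ∑ i ∈ S, pair R N i.2 x • i.1 = x) ∧ (∀ y, ∑ i ∈ S, pair R N y i.1 • i.2 = y) := by
  let t : TensorProduct K (R.H.obj N) (R.H.obj Nᘁ) := (coe R N).hom (1 : K)
  obtain ⟨S, hS⟩ := TensorProduct.exists_finset t
  refine ⟨S, fun x => ?_, fun y => ?_⟩
  · have h1 : (R.H.obj N ◁ evb R N).hom
        ((α_ (R.H.obj N) (R.H.obj Nᘁ) (R.H.obj N)).hom.hom (t ⊗ₜ[K] x :
          TensorProduct K (TensorProduct K (R.H.obj N) (R.H.obj Nᘁ)) (R.H.obj N))) =
        ((∑ i ∈ S, pair R N i.2 x • i.1) ⊗ₜ[K] (1 : K) : TensorProduct K (R.H.obj N) K) := by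
      rw [hS, TensorProduct.sum_tmul, map_sum, map_sum, TensorProduct.sum_tmul]
      refine Finset.sum_congr rfl fun i _ => ?_
      rw [TensorProduct.smul_tmul, smul_eq_mul, mul_one, pair_apply]
      rfl
    have h2 := LinearMap.congr_fun (congrArg ModuleCat.Hom.hom (zigzag R N))
      ((1 : K) ⊗ₜ[K] x : TensorProduct K K (R.H.obj N))
    have h4 : ((∑ i ∈ S, pair R N i.2 x • i.1) ⊗ₜ[K] (1 : K) : TensorProduct K (R.H.obj N) K) =
        (x ⊗ₜ[K] (1 : K) : TensorProduct K (R.H.obj N) K) := by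
      rw [← h1]
      refine h2.trans ?_
      change (TensorProduct.rid K (R.H.obj N)).symm ((1 : K) • x) = _
      rw [one_smul, TensorProduct.rid_symm_apply]
    have h5 := congrArg (TensorProduct.rid K (R.H.obj N)) h4
    simpa using h5
  · have h1 : (evb R N ▷ R.H.obj Nᘁ).hom
        ((α_ (R.H.obj Nᘁ) (R.H.obj N) (R.H.obj Nᘁ)).inv.hom (y ⊗ₜ[K] t :
          TensorProduct K (R.H.obj Nᘁ) (TensorProduct K (R.H.obj N) (R.H.obj Nᘁ)))) =
        ((1 : K) ⊗ₜ[K] (∑ i ∈ S, pair R N y i.1 • i.2) : TensorProduct K K (R.H.obj Nᘁ)) := by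
      rw [hS, TensorProduct.tmul_sum, map_sum, map_sum, TensorProduct.tmul_sum]
      refine Finset.sum_congr rfl fun i _ => ?_
      rw [TensorProduct.tmul_smul, TensorProduct.smul_tmul', smul_eq_mul, mul_one, pair_apply]
      rfl
    have h2 := LinearMap.congr_fun (congrArg ModuleCat.Hom.hom (zigzag2 R N))
      (y ⊗ₜ[K] (1 : K) : TensorProduct K (R.H.obj Nᘁ) K)
    have h4 : ((1 : K) ⊗ₜ[K] (∑ i ∈ S, pair R N y i.1 • i.2) : TensorProduct K K (R.H.obj Nᘁ)) =
        ((1 : K) ⊗ₜ[K] y : TensorProduct K K (R.H.obj Nᘁ)) := by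
      rw [← h1]
      refine h2.trans ?_
      change (TensorProduct.lid K (R.H.obj Nᘁ)).symm ((1 : K) • y) = _
      rw [one_smul, TensorProduct.lid_symm_apply]
    have h5 := congrArg (TensorProduct.lid K (R.H.obj Nᘁ)) h4
    simpa using h5

lemma pair_ext (N : C) {y z : R.H.obj Nᘁ} (h : ∀ x, pair R N y x = pair R N z x) : y = z := by
  obtain ⟨S, -, h2⟩ := exists_dual_bases R N
  rw [← h2 y, ← h2 z]
  exact Finset.sum_congr rfl fun i _ => by rw [h]

lemma pair_adj (N : C) (f : N ⟶ N) (y : R.H.obj Nᘁ) (x : R.H.obj N) :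
    pair R N ((R.H.map (fᘁ)).hom y) x = pair R N y ((R.H.map f).hom x) := by
  have h1 : R.H.map (fᘁ) ▷ R.H.obj N ≫ evb R N = R.H.obj Nᘁ ◁ R.H.map f ≫ evb R N := by
    rw [evb, μ_natural_left_assoc, μ_natural_right_assoc, ← Functor.map_comp_assoc,
      ← Functor.map_comp_assoc, rightAdjointMate_comp_evaluation]
  exact LinearMap.congr_fun (congrArg ModuleCat.Hom.hom h1)
    (y ⊗ₜ[K] x : TensorProduct K (R.H.obj Nᘁ) (R.H.obj N))

lemma pair_par (N : C) (y : R.H.obj Nᘁ) (x : R.H.obj N) :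
    pair R N ((R.par Nᘁ).hom y) ((R.par N).hom x) = pair R N y x :=
  LinearMap.congr_fun (congrArg ModuleCat.Hom.hom (evb_even R N))
    (y ⊗ₜ[K] x : TensorProduct K (R.H.obj Nᘁ) (R.H.obj N))

lemma par_par (N : C) (x : R.H.obj N) : (R.par N).hom ((R.par N).hom x) = x :=
  LinearMap.congr_fun (congrArg ModuleCat.Hom.hom (R.par_sq N)) x

end

/-- DUALX: traces and parity of duals. -/
theorem t_DUALX : Pool.Agent.K3h63.IQ.S_DUALX.{v, u, w} := by
  intro C _ _ _ _ _ _ _ _ K _ R M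
  refine ⟨fun f => ?_, fun d hd => ?_, fun hM => ?_⟩
  · have i1 := R.finite M
    have i2 := R.finite (Mᘁ)
    obtain ⟨S, h1, h2⟩ := exists_dual_bases R M
    exact trace_adj S (pair R M) h1 h2 _ _ (pair_adj R M f)
  · have h1 : ∀ y : R.H.obj Mᘁ, d • (R.par Mᘁ).hom y = y := by
      intro y
      apply pair_ext R M
      intro x
      rw [← pair_par R M y x, hd, ModuleCat.hom_smul, ModuleCat.hom_id, LinearMap.smul_apply,
        LinearMap.id_apply, map_smul, map_smul, LinearMap.smul_apply]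
    ext y
    rw [ModuleCat.hom_smul, ModuleCat.hom_id, LinearMap.smul_apply, LinearMap.id_apply]
    have h2 := h1 ((R.par Mᘁ).hom y)
    rw [par_par] at h2
    exact h2.symm
  · rw [cplus_iff] at hM ⊢
    obtain ⟨g, hg⟩ := hM
    refine ⟨gᘁ, ?_⟩
    ext y
    apply pair_ext R M
    intro x
    rw [pair_adj, hg, ← pair_par R M y, par_par]

end Pool.Agent.K3h33.IQ
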